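import Pool.Agent.H61.FM.Targets
import Pool.Agent.H46.CN.NF

/-!
# Row VIG of the board `fmc_modules`: vectors of an ideal and integral ideals of the inverse class
-/

set_option autoImplicit false

open MeasureTheory Set Filter NumberField
open scoped Real nonZeroDivisors

namespace Pool.Agent.H60.FM

open Pool.Agent.H31.CN Pool.Agent.H89.FM Pool.Agent.H61.FM Pool.Agent.H46.CN

/-- The rank of the units is zero. -/
theorem rank_zero {K : Type} [Field K] [NumberField K] {D : ℕ} (h : IQ K D) :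
    Units.rank K = 0 := by
  have hd : discr K < 0 := by
    rw [h.dis]
    have := h.pos
    omega
  have h2 := InfinitePlace.card_add_two_mul_card_eq_rank K
  have h3 := sign_discr K
  rw [Int.sign_eq_neg_one_of_neg hd] at h3
  rw [h.rk] at h2
  have h4 : InfinitePlace.nrComplexPlaces K ≠ 0 := by
    intro h0
    rw [h0] at h3
    norm_num at h3
  have h5 := InfinitePlace.card_eq_nrRealPlaces_add_nrComplexPlaces K
  unfold Units.rank
  omega

/-- The group of the units is finite. -/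
theorem units_finite {K : Type} [Field K] [NumberField K] {D : ℕ} (h : IQ K D) :
    Finite (𝓞 K)ˣ := by
  have hr := rank_zero h
  refine Finite.of_surjective (fun ζ : Units.torsion K => (ζ : (𝓞 K)ˣ)) ?_
  intro u
  obtain ⟨⟨x, e⟩, hxu, -⟩ := Units.exist_unique_eq_mul_prod K u
  refine ⟨x, ?_⟩
  have hE : IsEmpty (Fin (Units.rank K)) := by
    rw [hr]
    infer_instance
  rw [Finset.univ_eq_empty, Finset.prod_empty, mul_one] at hxu
  exact hxu.symm

theorem pf_VIG : T_VIG := by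
  intro K _ _ D σ hIQ I α β Q h
  have hfin := hIQ.rk
  have hI0 : (I : Ideal (𝓞 K)) ≠ 0 := nonZeroDivisors.coe_ne_zero I
  have hne : ∀ v : ℤ × ℤ, v ≠ 0 → (v.1 : 𝓞 K) * α + (v.2 : 𝓞 K) * β ≠ 0 :=
    fun v hv h0 => hv (h.inj v h0)
  have hinj : ∀ v v' : ℤ × ℤ, (v.1 : 𝓞 K) * α + (v.2 : 𝓞 K) * β =
      (v'.1 : 𝓞 K) * α + (v'.2 : 𝓞 K) * β → v = v' := by
    intro v v' he
    have h3 := h.inj (v - v') (by
      simp only [Prod.fst_sub, Prod.snd_sub]
      push_cast
      linear_combination he)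
    exact sub_eq_zero.1 h3
  have hex : ∀ v : ℤ × ℤ, ∃ b : (Ideal (𝓞 K))⁰, v ≠ 0 →
      Ideal.span {(v.1 : 𝓞 K) * α + (v.2 : 𝓞 K) * β} = (b : Ideal (𝓞 K)) * I := by
    intro v
    by_cases hv : v = 0
    · exact ⟨1, fun h => absurd hv h⟩
    · have hmem : (v.1 : 𝓞 K) * α + (v.2 : 𝓞 K) * β ∈ (I : Ideal (𝓞 K)) := (h.mem _).2 ⟨v, rfl⟩
      have hdvd : (I : Ideal (𝓞 K)) ∣ Ideal.span {(v.1 : 𝓞 K) * α + (v.2 : 𝓞 K) * β} := by
        rw [Ideal.dvd_span_singleton]
        exact hmem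
      obtain ⟨c, hc⟩ := hdvd
      have hc0 : c ≠ 0 := by
        rintro rfl
        rw [mul_zero] at hc
        exact hne v hv (Ideal.span_singleton_eq_bot.1 hc)
      exact ⟨⟨c, mem_nonZeroDivisors_of_ne_zero hc0⟩, fun _ => by rw [hc, mul_comm]⟩
  have hfu : Finite (𝓞 K)ˣ := units_finite hIQ
  refine ⟨?_, ?_⟩
  · unfold un
    exact Nat.card_pos
  choose b hb using hex
  refine ⟨b, hb, fun v hv => ⟨?_, ?_⟩, fun J hJ => ?_, fun v hv => ?_⟩
  · rw [eq_inv_iff_mul_eq_one, ← map_mul, ClassGroup.mk0_eq_one_iff]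
    refine ⟨⟨(v.1 : 𝓞 K) * α + (v.2 : 𝓞 K) * β, ?_⟩⟩
    rw [Submonoid.coe_mul, ← hb v hv, Ideal.submodule_span_eq]
  · exact OB_quot K σ hfin I (b v) α β Q h v (hb v hv)
  · rw [eq_inv_iff_mul_eq_one, ← map_mul, ClassGroup.mk0_eq_one_iff] at hJ
    obtain ⟨⟨γ, hγ⟩⟩ := hJ
    have hγ' : (J : Ideal (𝓞 K)) * I = Ideal.span {γ} := by
      rw [← Submonoid.coe_mul, hγ, Ideal.submodule_span_eq]
    have hmem : γ ∈ (I : Ideal (𝓞 K)) := by
      have h1 : γ ∈ (J : Ideal (𝓞 K)) * I := by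
        rw [hγ']
        exact Ideal.mem_span_singleton_self γ
      exact Ideal.mul_le_right h1
    obtain ⟨v, hv⟩ := (h.mem γ).1 hmem
    have hv0 : v ≠ 0 := by
      rintro rfl
      simp only [Prod.fst_zero, Prod.snd_zero, Int.cast_zero, zero_mul, add_zero] at hv
      rw [hv] at hγ'
      have h1 : (J : Ideal (𝓞 K)) * I = 0 := by
        rw [hγ']
        simp
      exact mul_ne_zero (nonZeroDivisors.coe_ne_zero J) hI0 h1
    refine ⟨v, hv0, ?_⟩
    have h2 := hb v hv0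
    rw [← hv, ← hγ'] at h2
    exact Subtype.ext (mul_right_cancel₀ hI0 h2.symm)
  · have hex2 : ∀ u : (𝓞 K)ˣ, ∃ w : ℤ × ℤ, ((v.1 : 𝓞 K) * α + (v.2 : 𝓞 K) * β) * u =
        (w.1 : 𝓞 K) * α + (w.2 : 𝓞 K) * β := by
      intro u
      refine (h.mem _).1 (Ideal.mul_mem_right _ _ ((h.mem _).2 ⟨v, rfl⟩))
    choose w hw using hex2
    have hw0 : ∀ u, w u ≠ 0 := by
      intro u h0
      have h1 := hw u
      rw [h0] at h1
      simp only [Prod.fst_zero, Prod.snd_zero, Int.cast_zero, zero_mul, add_zero] at h1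
      exact mul_ne_zero (hne v hv) u.ne_zero h1
    have hwb : ∀ u, b (w u) = b v := by
      intro u
      have h1 : Ideal.span {((w u).1 : 𝓞 K) * α + ((w u).2 : 𝓞 K) * β} =
          Ideal.span {(v.1 : 𝓞 K) * α + (v.2 : 𝓞 K) * β} := by
        rw [Ideal.span_singleton_eq_span_singleton]
        exact Associated.symm ⟨u, hw u⟩
      rw [hb (w u) (hw0 u), hb v hv] at h1
      exact Subtype.ext (mul_right_cancel₀ hI0 h1)
    let f : (𝓞 K)ˣ → {v' : ℤ × ℤ | v' ≠ 0 ∧ b v' = b v} := fun u => ⟨w u, hw0 u, hwb u⟩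
    have hf : Function.Bijective f := by
      constructor
      · intro u u' huu
        have h1 : w u = w u' := congrArg Subtype.val huu
        have h2 : ((v.1 : 𝓞 K) * α + (v.2 : 𝓞 K) * β) * (u : 𝓞 K) =
            ((v.1 : 𝓞 K) * α + (v.2 : 𝓞 K) * β) * (u' : 𝓞 K) := by
          rw [hw u, hw u', h1]
        exact Units.ext (mul_left_cancel₀ (hne v hv) h2)
      · rintro ⟨v', hv', hbv⟩
        have h1 : Ideal.span {(v.1 : 𝓞 K) * α + (v.2 : 𝓞 K) * β} =
            Ideal.span {(v'.1 : 𝓞 K) * α + (v'.2 : 𝓞 K) * β} := by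
          rw [hb v hv, hb v' hv', hbv]
        rw [Ideal.span_singleton_eq_span_singleton] at h1
        obtain ⟨u, hu⟩ := h1
        refine ⟨u, Subtype.ext ?_⟩
        exact hinj _ _ ((hw u).symm.trans hu)
    rw [← Nat.card_coe_set_eq]
    exact (Nat.card_congr (Equiv.ofBijective f hf)).symm

end Pool.Agent.H60.FM
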